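import Mathlib

namespace Pool.Agent.Results.MP_496e47_co.RectangleUnique

open Finset

/-- Standard Young tableaux of the rectangular shape with two rows of length three. A cell is a
pair (row, column); the entry `i : Fin 6` stands for `i + 1`. -/
def SYT : Type :=
  {T : Fin 2 × Fin 3 ≃ Fin 6 //
    (∀ (r : Fin 2) (c c' : Fin 3), c < c' → T (r, c) < T (r, c')) ∧
    (∀ (r r' : Fin 2) (c : Fin 3), r < r' → T (r, c) < T (r', c))}

/-- The descent set: entries other than the last whose successor lies in a strictly lower row. -/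
def Des (T : SYT) : Finset (Fin 6) :=
  univ.filter (fun i => i ≠ 5 ∧ (T.1.symm i).1 < (T.1.symm (i + 1)).1)

/-- A cyclic descent map. -/
def IsCDes (cDes : SYT → Finset (Fin 6)) : Prop :=
  ∃ φ : SYT ≃ SYT, ∀ T : SYT,
    (cDes T).erase 5 = Des T ∧ cDes (φ T) = (cDes T).image (fun i => i + 1) ∧
      cDes T ≠ ∅ ∧ cDes T ≠ univ

/-- The set of descent numbers. -/
def D : Set ℕ := {k | ∃ T : SYT, (Des T).card = k}

def fw : Fin 5 → Fin 2 × Fin 3 → Fin 6 := fun k x =>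
  ![![![0, 1, 2], ![3, 4, 5]], ![![0, 1, 3], ![2, 4, 5]], ![![0, 1, 4], ![2, 3, 5]],
    ![![0, 2, 3], ![1, 4, 5]], ![![0, 2, 4], ![1, 3, 5]]] k x.1 x.2

def bw : Fin 5 → Fin 6 → Fin 2 × Fin 3 :=
  ![![(0, 0), (0, 1), (0, 2), (1, 0), (1, 1), (1, 2)],
    ![(0, 0), (0, 1), (1, 0), (0, 2), (1, 1), (1, 2)],
    ![(0, 0), (0, 1), (1, 0), (1, 1), (0, 2), (1, 2)],
    ![(0, 0), (1, 0), (0, 1), (0, 2), (1, 1), (1, 2)],
    ![(0, 0), (1, 0), (0, 1), (1, 1), (0, 2), (1, 2)]]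

def tab (k : Fin 5) : SYT :=
  ⟨⟨fw k, bw k, by revert k; decide, by revert k; decide⟩, by revert k; decide⟩

set_option synthInstance.maxSize 4000 in
lemma cls : ∀ a b c d e g : Fin 6, a < b → b < c → d < e → e < g → a < d → b < e → c < g →
    b ≠ d → c ≠ d → c ≠ e → ∃ k : Fin 5, fw k (0, 0) = a ∧ fw k (0, 1) = b ∧ fw k (0, 2) = c ∧
      fw k (1, 0) = d ∧ fw k (1, 1) = e ∧ fw k (1, 2) = g := by
  decide +kernel

lemma tab_surj : Function.Surjective tab := by
  rintro ⟨T, h1, h2⟩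
  obtain ⟨k, e1, e2, e3, e4, e5, e6⟩ := cls (T (0, 0)) (T (0, 1)) (T (0, 2)) (T (1, 0)) (T (1, 1))
    (T (1, 2)) (h1 _ _ _ (by decide)) (h1 _ _ _ (by decide)) (h1 _ _ _ (by decide))
    (h1 _ _ _ (by decide)) (h2 _ _ _ (by decide)) (h2 _ _ _ (by decide)) (h2 _ _ _ (by decide))
    (fun h => absurd (T.injective h) (by decide)) (fun h => absurd (T.injective h) (by decide))
    (fun h => absurd (T.injective h) (by decide))
  refine ⟨k, Subtype.ext (Equiv.ext ?_)⟩
  rintro ⟨r, c⟩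
  fin_cases r <;> fin_cases c
  exacts [e1, e2, e3, e4, e5, e6]

def ds : Fin 5 → Finset (Fin 6) := ![{2}, {1, 3}, {1, 4}, {0, 3}, {0, 2, 4}]
def cd : Fin 5 → Finset (Fin 6) := ![{2, 5}, {1, 3, 5}, {1, 4}, {0, 3}, {0, 2, 4}]
def rot : Fin 5 → Fin 5 := ![3, 4, 0, 2, 1]

lemma des_tab : ∀ k, Des (tab k) = ds k := by decide

lemma tab_inj : Function.Injective tab := by
  intro k l h
  have h1 : ds k = ds l := by rw [← des_tab, ← des_tab, h]
  exact (by decide : ∀ k l, ds k = ds l → k = l) k l h1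

noncomputable def eqv : Fin 5 ≃ SYT := Equiv.ofBijective tab ⟨tab_inj, tab_surj⟩

lemma eqv_symm (k : Fin 5) : eqv.symm (tab k) = k := eqv.symm_apply_apply k

lemma forced : ∀ (A : Finset (Fin 6)) (k l : Fin 5), A.erase 5 = ds k →
    (A.image (fun i => i + 1)).erase 5 = ds l → A = cd k := by
  decide +kernel

theorem result : (∃! cDes : SYT → Finset (Fin 6), IsCDes cDes) ∧ D = {1, 2, 3} ∧
    ¬ ∃ k : ℕ, D = {k, k + 1} := by
  have hD : D = {1, 2, 3} := by
    ext m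
    constructor
    · rintro ⟨T, rfl⟩
      obtain ⟨k, rfl⟩ := tab_surj T
      rw [des_tab]
      revert k
      simp only [Set.mem_insert_iff, Set.mem_singleton_iff]
      decide
    · rintro (rfl | rfl | rfl)
      · exact ⟨tab 0, by decide⟩
      · exact ⟨tab 1, by decide⟩
      · exact ⟨tab 4, by decide⟩
  refine ⟨⟨fun T => cd (eqv.symm T), ?_, ?_⟩, hD, ?_⟩
  · refine ⟨eqv.symm.trans ((Equiv.ofBijective rot (by decide)).trans eqv), fun T => ?_⟩
    obtain ⟨k, rfl⟩ := tab_surj T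
    simp only [Equiv.trans_apply, Equiv.symm_apply_apply, eqv_symm, des_tab,
      Equiv.ofBijective_apply]
    revert k
    decide
  · rintro c ⟨φ, h⟩
    funext T
    obtain ⟨k, rfl⟩ := tab_surj T
    obtain ⟨l, hl⟩ := tab_surj (φ (tab k))
    rw [eqv_symm]
    apply forced _ k l
    · rw [(h (tab k)).1, des_tab]
    · rw [← (h (tab k)).2.1, (h (φ (tab k))).1, ← hl, des_tab]
  · rintro ⟨k, hk⟩
    rw [hD] at hk
    have h1 : (1 : ℕ) ∈ ({k, k + 1} : Set ℕ) := by rw [← hk]; simp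
    have h3 : (3 : ℕ) ∈ ({k, k + 1} : Set ℕ) := by rw [← hk]; simp
    simp only [Set.mem_insert_iff, Set.mem_singleton_iff] at h1 h3
    omega

end Pool.Agent.Results.MP_496e47_co.RectangleUnique
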